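import Pool.Agent.H30.EE.TargetsP

/-!
# MP_70ba79_ag: module JCO (codimension of the pieces)
-/

set_option autoImplicit false

namespace Pool.Agent.H42.EE

open MvPolynomial SC Pool.Agent.H27.LV Pool.Agent.H17.VG Pool.Agent.H30.EE

theorem pf_JCO (hDSP : T_DSP) (hHNB : T_HNB) : T_JCO := by
  intro k K _ _ _ _ _ _ htr n a x μ J hx hμ hJ
  have hD := hDSP k K htr n a
  have hfin := (hD.2.2.2.2.2 x hx).2
  have hfd : FiniteDimensional K (Sd K n a) := Module.finite_of_finrank_pos (by omega)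
  have hMd : Md a x ≤ Sd K n a := inf_le_left
  have hfd' : FiniteDimensional K (Md a x) := Submodule.finiteDimensional_of_le hMd
  have h1 := (hHNB K _ (Md a x) (dS k n a) μ J
    (fun U hU U' hU' => hD.2.2.2.1 U (hU.trans hMd) U' (hU'.trans hMd)) hJ).1
  have h2 := hD.2.2.1 J
  rw [(hD.2.2.2.2.2 x hx).1] at h1
  have h3 : (Module.finrank K (Sd K n a) : ℚ) = Module.finrank K (Md a x) + 1 := by
    exact_mod_cast hfin.symm
  have h4 : (dS k n a J : ℚ) ≤ 0 := by exact_mod_cast h2
  rw [h3]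
  push_cast at h1
  linarith

end Pool.Agent.H42.EE
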