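import Pool.Agent.H30.EE.TargetsP
import Pool.Agent.H77.VG.IP

/-!
# MP_70ba79_ag: module QSL (quotients of the spaces of forms which vanish at a point)
-/

set_option autoImplicit false

namespace Pool.Agent.H42.EE

open MvPolynomial SC Pool.Agent.H27.LV Pool.Agent.H17.VG Pool.Agent.H30.EE

lemma mem_Md {K : Type} [Field K] {n d : ℕ} {x : Fin (n + 1) → K}
    {G : MvPolynomial (Fin (n + 1)) K} : G ∈ Md d x ↔ G.IsHomogeneous d ∧ eval x G = 0 := by
  unfold Md
  rw [Submodule.mem_inf, LinearMap.mem_ker]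
  constructor
  · rintro ⟨h1, h2⟩
    refine ⟨h1, ?_⟩
    rw [← MvPolynomial.coe_aeval_eq_eval]
    exact h2
  · rintro ⟨h1, h2⟩
    refine ⟨h1, ?_⟩
    rw [← MvPolynomial.coe_aeval_eq_eval] at h2
    exact h2

lemma mul_Md {K : Type} [Field K] {n e : ℕ} {x : Fin (n + 1) → K} (M : Mon (n + 1) e) :
    mulW (mono K M.1) (Md 1 x) ≤ Md (e + 1) x := by
  intro G hG
  obtain ⟨g, hg, rfl⟩ := hG
  have hg' := mem_Md.1 hg
  refine mem_Md.2 ⟨(isHomogeneous_mono M).mul hg'.1, ?_⟩
  change eval x (mono K M.1 * g) = 0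
  rw [map_mul, hg'.2, mul_zero]

lemma Md_le {K : Type} [Field K] {n e : ℕ} {x : Fin (n + 1) → K} (hx : x ≠ 0) :
    Md (e + 1) x ≤ ⨆ M : Mon (n + 1) e, mulW (mono K M.1) (Md 1 x) := by
  intro G hG
  have hG' := mem_Md.1 hG
  have h := Pool.Agent.H77.VG.ip K n e x hx G hG'.1 hG'.2
  refine (Submodule.span_le.2 ?_) h
  rintro _ ⟨ξ, Q, hξ, hQ, rfl⟩
  have hlin : lin ξ ∈ Md 1 x := by
    refine mem_Md.2 ⟨isHomogeneous_lin ξ, ?_⟩
    unfold lin
    rw [map_sum]
    simpa using hξ
  rw [SetLike.mem_coe, ← frm_coeff hQ]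
  unfold frm
  rw [Finset.mul_sum]
  refine Submodule.sum_mem _ fun M _ => ?_
  refine (le_iSup (fun M : Mon (n + 1) e => mulW (mono K M.1) (Md 1 x)) M) ?_
  refine ⟨(coeff (fs M.1) Q) • lin ξ, Submodule.smul_mem _ _ hlin, ?_⟩
  rw [LinearMap.mulLeft_apply, smul_eq_C_mul]
  ring

lemma up_mono {k K : Type} [Field k] [Field K] [Algebra k K] {n : ℕ} (f : Fin (n + 1) → ℕ) :
    up K (mono k f) = mono K f := by
  unfold up mono
  rw [MvPolynomial.map_monomial, map_one]

theorem pf_QSL (hMUL : T_MUL) (hDSP : T_DSP) : T_QSL := by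
  intro k K _ _ _ _ _ _ htr n d x hx U hU
  have hD := hDSP k K htr n d
  have hfd : FiniteDimensional K (Sd K n d) := by
    have h1 := (hD.2.2.2.2.2 x hx).2
    exact Module.finite_of_finrank_pos (by omega)
  have hMd : Md d x ≤ Sd K n d := inf_le_left
  have hh : 0 ≤ hgt k x := by
    have h1 := (hDSP k K htr n 1).2.2.1 (Md 1 x)
    rw [((hDSP k K htr n 1).2.2.2.2.2 x hx).1] at h1
    push_cast at h1
    linarith
  obtain ⟨h, hhd⟩ : ∃ h, h = hgt k x := ⟨_, rfl⟩
  rw [← hhd] at hh ⊢
  rcases d with _ | e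
  · -- d = 0
    have hbot : Md 0 x = ⊥ := by
      rw [eq_bot_iff]
      intro G hG
      have hG' := mem_Md.1 hG
      have h1 := hG'.1.totalDegree_le
      have h2 : G = C (coeff 0 G) := totalDegree_eq_zero_iff_eq_C.1 (by omega)
      have h3 := hG'.2
      rw [h2, eval_C] at h3
      rw [Submodule.mem_bot, h2, h3, C_0]
    rw [hbot] at hU ⊢
    rw [le_bot_iff.1 hU]
    simp
  · have key : ∀ S : Finset (Mon (n + 1) e),
        -(h * ((Module.finrank K ↥(U ⊔ ⨆ M ∈ S, mulW (mono K M.1) (Md 1 x)) : ℤ) -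
          Module.finrank K U)) ≤
        dS k n (e + 1) (U ⊔ ⨆ M ∈ S, mulW (mono K M.1) (Md 1 x)) - dS k n (e + 1) U := by
      classical
      intro S
      induction S using Finset.induction_on with
      | empty =>
        have h0 : U ⊔ ⨆ M ∈ (∅ : Finset (Mon (n + 1) e)), mulW (mono K M.1) (Md 1 x) = U := by
          have h1 : (⨆ M ∈ (∅ : Finset (Mon (n + 1) e)), mulW (mono K M.1) (Md 1 x)) = ⊥ := by
            simp
          rw [h1, sup_bot_eq]
        rw [h0, sub_self, sub_self, mul_zero, neg_zero]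
      | insert M S _ ih =>
        rw [Finset.iSup_insert, sup_comm (mulW (mono K M.1) (Md 1 x)), ← sup_assoc]
        obtain ⟨U', hU'⟩ : ∃ U', U' = U ⊔ ⨆ M ∈ S, mulW (mono K M.1) (Md 1 x) := ⟨_, rfl⟩
        rw [← hU'] at ih ⊢
        have hU'le : U' ≤ Sd K n (e + 1) := by
          rw [hU']
          refine sup_le (hU.trans hMd) (iSup_le fun M' => iSup_le fun _ => (mul_Md M').trans hMd)
        have hVle : mulW (mono K M.1) (Md 1 x) ≤ Sd K n (e + 1) := (mul_Md M).trans hMd
        by_cases hle : mulW (mono K M.1) (Md 1 x) ≤ U'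
        · rw [sup_eq_left.2 hle]
          exact ih
        · have h1 := hD.2.2.2.1 U' hU'le _ hVle
          have h2 := hD.2.2.1 (U' ⊓ mulW (mono K M.1) (Md 1 x))
          have h3 : dS k n (e + 1) (mulW (mono K M.1) (Md 1 x)) = -h := by
            have h4 := hMUL k K htr n 1 e (mono k M.1) (by
              intro h0
              have := congrArg (coeff (fs M.1)) h0
              rw [coeff_mono, if_pos rfl, coeff_zero] at this
              exact one_ne_zero this) (isHomogeneous_mono M) (Md 1 x) inf_le_left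
            rw [up_mono, add_comm 1 e, ((hDSP k K htr n 1).2.2.2.2.2 x hx).1, ← hhd] at h4
            rw [h4]
            push_cast
            ring
          have hlt : Module.finrank K U' <
              Module.finrank K ↥(U' ⊔ mulW (mono K M.1) (Md 1 x)) := by
            have : FiniteDimensional K ↥(U' ⊔ mulW (mono K M.1) (Md 1 x)) :=
              Submodule.finiteDimensional_of_le (sup_le hU'le hVle)
            refine Submodule.finrank_lt_finrank_of_lt (lt_of_le_of_ne le_sup_left ?_)
            intro heq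
            exact hle (sup_eq_left.1 heq.symm)
          have hlt' : (Module.finrank K U' : ℤ) + 1 ≤
              Module.finrank K ↥(U' ⊔ mulW (mono K M.1) (Md 1 x)) := by exact_mod_cast hlt
          nlinarith
    have htop : U ⊔ ⨆ M ∈ (Finset.univ : Finset (Mon (n + 1) e)),
        mulW (mono K M.1) (Md 1 x) = Md (e + 1) x := by
      apply le_antisymm
      · exact sup_le hU (iSup_le fun M => iSup_le fun _ => mul_Md M)
      · refine (Md_le hx).trans (le_trans ?_ le_sup_right)
        refine iSup_le fun M => ?_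
        exact le_iSup₂_of_le M (Finset.mem_univ M) le_rfl
    have h1 := key Finset.univ
    rw [htop] at h1
    exact h1

end Pool.Agent.H42.EE
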