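import Pool.Agent.H30.EE.TargetsG
import Pool.Agent.H27.LV.Curve

/-!
# MP_70ba79_ag: module TRI (leading exponents of a lattice)
-/

set_option autoImplicit false

namespace Pool.Agent.H42.EE

open SC Pool.Agent.H27.LV Pool.Agent.H17.VG Pool.Agent.H30.EE

section Tri

variable {k K : Type} [Field k] [Field K] [Algebra k K] (v : DV k K)

lemma ge_prod {κ : Type*} (s : Finset κ) (f : κ → K) (h : ∀ i ∈ s, ge v 0 (f i)) :
    ge v 0 (∏ i ∈ s, f i) := by
  classical
  induction s using Finset.induction_on with
  | empty => exact ge_one v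
  | insert a s ha ih =>
    rw [Finset.prod_insert ha]
    have := (h a (Finset.mem_insert_self _ _)).mul
      (ih fun i hi => h i (Finset.mem_insert_of_mem hi))
    rwa [add_zero] at this

lemma ge_det {m : ℕ} (A : Matrix (Fin m) (Fin m) K) (h : ∀ i j, ge v 0 (A i j)) :
    ge v 0 A.det := by
  rw [Matrix.det_apply']
  refine ge_sum v _ _ _ fun σ _ => ?_
  have h1 : ge v 0 (((Equiv.Perm.sign σ : ℤˣ) : ℤ) : K) := by
    rcases Int.units_eq_one_or (Equiv.Perm.sign σ) with h2 | h2
    · rw [h2]
      simpa using ge_one v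
    · rw [h2]
      simpa using (ge_one v).neg
  have := h1.mul (ge_prod v Finset.univ (fun i => A (σ i) i) fun i _ => h _ _)
  rwa [add_zero] at this

/-- finitely many elements have bounded poles -/
lemma exists_bd {ι : Type} [Fintype ι] (c : ι → K) : ∃ b : ℕ, ∀ j, ge v (-(b : ℤ)) (c j) := by
  classical
  refine ⟨∑ j, (v.ord (c j)).natAbs, fun j => Or.inr ?_⟩
  have h1 : (v.ord (c j)).natAbs ≤ ∑ j, (v.ord (c j)).natAbs :=
    Finset.single_le_sum (f := fun j => (v.ord (c j)).natAbs) (fun _ _ => Nat.zero_le _)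
      (Finset.mem_univ j)
  omega

variable {v}

/-- combination of the columns -/
def cb {ι : Type} [Fintype ι] {N : ℕ} (u : Fin (N + 1) → ι → K) (c : ι → K) (l : Fin (N + 1)) :
    K := ∑ j, c j * u l j

lemma cb_sub {ι : Type} [Fintype ι] {N : ℕ} (u : Fin (N + 1) → ι → K) (c c' : ι → K) (t : K)
    (l : Fin (N + 1)) : cb u (fun j => c j - t * c' j) l = cb u c l - t * cb u c' l := by
  unfold cb
  rw [Finset.mul_sum, ← Finset.sum_sub_distrib]
  exact Finset.sum_congr rfl fun j _ => by ring

lemma cb_mul {ι : Type} [Fintype ι] {N : ℕ} (u : Fin (N + 1) → ι → K) (c : ι → K) (t : K)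
    (l : Fin (N + 1)) : cb u (fun j => t * c j) l = t * cb u c l := by
  unfold cb
  rw [Finset.mul_sum]
  exact Finset.sum_congr rfl fun j _ => by ring

/-- full rank: unit vectors are combinations of the columns -/
lemma exists_unit {ι : Type} [Fintype ι] {N : ℕ} (u : Fin (N + 1) → ι → K) (hu : mnr u ≠ 0)
    (i : Fin (N + 1)) : ∃ c : ι → K, ∀ l, cb u c l = if l = i then 1 else 0 := by
  classical
  obtain ⟨J, hJ⟩ : ∃ J, mnr u J ≠ 0 := by
    by_contra hcon
    push Not at hcon
    exact hu (funext hcon)
  obtain ⟨M, hM⟩ : ∃ M : Matrix (Fin (N + 1)) (Fin (N + 1)) K,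
      M = Matrix.of fun a b => u a (J b) := ⟨_, rfl⟩
  have hdet : IsUnit M.det := by
    rw [isUnit_iff_ne_zero, hM]
    exact hJ
  obtain ⟨y, hy⟩ : ∃ y : Fin (N + 1) → K, y = fun b => M⁻¹ b i := ⟨_, rfl⟩
  refine ⟨fun j => ∑ b, if J b = j then y b else 0, fun l => ?_⟩
  have h1 : cb u (fun j => ∑ b, if J b = j then y b else 0) l = ∑ b, u l (J b) * y b := by
    unfold cb
    simp only [Finset.sum_mul, ite_mul, zero_mul]
    rw [Finset.sum_comm]
    refine Finset.sum_congr rfl fun b _ => ?_
    rw [Finset.sum_ite_eq]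
    simp [mul_comm]
  have h2 : ∑ b, u l (J b) * y b = (M * M⁻¹) l i := by
    rw [Matrix.mul_apply, hy, hM]
    rfl
  rw [h1, h2, Matrix.mul_nonsing_inv _ hdet, Matrix.one_apply]

end Tri

theorem pf_TRI (hMO : T_MO) (hCBM : T_CBM) : T_TRI := by
  intro k K _ _ _ v N ι _ u hu
  classical
  have hmo := (hMO k K v (Fin (N + 1) → ι) (mnr u)).2 hu
  -- the minimal orders
  have hex : ∀ i : Fin (N + 1), ∃ a : ℤ, (∃ c : ι → K, (∀ j, ge v 0 (c j)) ∧
      (∀ l, i < l → cb u c l = 0) ∧ cb u c i ≠ 0 ∧ v.ord (cb u c i) = a) ∧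
      ∀ b : ℤ, (∃ c : ι → K, (∀ j, ge v 0 (c j)) ∧
      (∀ l, i < l → cb u c l = 0) ∧ cb u c i ≠ 0 ∧ v.ord (cb u c i) = b) → a ≤ b := by
    intro i
    apply Int.exists_least_of_bdd
    · obtain ⟨b, hb⟩ := exists_bd v (u i)
      refine ⟨-b, ?_⟩
      rintro z ⟨c, hc, -, hne, rfl⟩
      have h1 : ge v (-(b : ℤ)) (cb u c i) := by
        refine ge_sum v _ _ _ fun j _ => ?_
        have := (hc j).mul (hb j)
        rwa [zero_add] at this
      exact h1.resolve_left hne
    · obtain ⟨c, hc⟩ := exists_unit u hu i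
      obtain ⟨b, hb⟩ := exists_bd v c
      have hune : v.unif ^ b ≠ 0 := pow_ne_zero _ v.unif_ne_zero
      refine ⟨_, fun j => v.unif ^ b * c j, fun j => ?_, fun l hl => ?_, ?_, rfl⟩
      · have h1 : ge v (b : ℤ) (v.unif ^ b) := Or.inr (by rw [v.ord_unif_pow])
        have := h1.mul (hb j)
        rwa [add_neg_cancel] at this
      · rw [cb_mul, hc l, if_neg hl.ne', mul_zero]
      · rw [cb_mul, hc i, if_pos rfl, mul_one]
        exact hune
  choose e he hemin using hex
  choose c hc0 hcz hcne hcord using he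
  have hmin : ∀ (i : Fin (N + 1)) (c' : ι → K), (∀ j, ge v 0 (c' j)) →
      (∀ l, i < l → cb u c' l = 0) → ge v (e i) (cb u c' i) := by
    intro i c' h1 h2
    by_cases h3 : cb u c' i = 0
    · exact Or.inl h3
    · exact Or.inr (hemin i _ ⟨c', h1, h2, h3, rfl⟩)
  refine ⟨e, ?_, fun i => ⟨⟨c i, hc0 i, hcz i, hcne i, hcord i⟩, hmin i⟩⟩
  -- the triangular matrix
  obtain ⟨W, hW⟩ : ∃ W : Matrix (Fin (N + 1)) (Fin (N + 1)) K,
      W = Matrix.of fun a b => cb u (c b) a := ⟨_, rfl⟩
  have hWa : ∀ a b, W a b = cb u (c b) a := fun a b => by rw [hW]; rfl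
  have hWdet : W.det = ∏ i, cb u (c i) i := by
    rw [Matrix.det_of_upperTriangular]
    · exact Finset.prod_congr rfl fun i _ => hWa i i
    · intro a b hab
      rw [hWa]
      exact hcz b a hab
  have hWne : W.det ≠ 0 := by
    rw [hWdet]
    exact Finset.prod_ne_zero_iff.2 fun i _ => hcne i
  have hWord : v.ord W.det = ∑ i, e i := by
    rw [hWdet, v.ord_prod _ _ fun i _ => hcne i]
    exact Finset.sum_congr rfl fun i _ => hcord i
  apply le_antisymm
  · -- the minors are multiples of the determinant
    refine hmo.2.2.1 _ fun J => ?_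
    have hdec : ∀ (m : ℕ), m ≤ N + 1 → ∀ c' : ι → K, (∀ j, ge v 0 (c' j)) →
        (∀ l : Fin (N + 1), m ≤ (l : ℕ) → cb u c' l = 0) →
        ∃ a : Fin (N + 1) → K, (∀ b, ge v 0 (a b)) ∧ ∀ l, cb u c' l = ∑ b, W l b * a b := by
      intro m
      induction m with
      | zero =>
        intro _ c' _ h2
        exact ⟨0, fun _ => ge_zero v 0, fun l => by simp [h2 l (Nat.zero_le _)]⟩
      | succ m ih =>
        intro hm c' h1 h2
        obtain ⟨i, hi⟩ : ∃ i : Fin (N + 1), (i : ℕ) = m := ⟨⟨m, by omega⟩, rfl⟩
        have h3 : ge v (e i) (cb u c' i) := hmin i c' h1 fun l hl => h2 l (by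
          have : (i : ℕ) < l := hl
          omega)
        obtain ⟨t, ht⟩ : ∃ t, t = cb u c' i / cb u (c i) i := ⟨_, rfl⟩
        have ht0 : ge v 0 t := by
          have h4 : ge v (-(e i)) (cb u (c i) i)⁻¹ := Or.inr (by
            rw [v.ord_inv, hcord i])
          have := h3.mul h4
          rw [add_neg_cancel] at this
          rw [ht, div_eq_mul_inv]
          exact this
        have ht1 : t * cb u (c i) i = cb u c' i := by
          rw [ht, div_mul_cancel₀ _ (hcne i)]
        obtain ⟨a, ha0, ha⟩ := ih (by omega) (fun j => c' j - t * c i j)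
          (fun j => (h1 j).sub (by
            have := ht0.mul (hc0 i j)
            rwa [zero_add] at this)) (fun l hl => by
            rw [cb_sub]
            by_cases hli : l = i
            · rw [hli, ht1, sub_self]
            · have hl' : i < l := by
                have h5 : (l : ℕ) ≠ i := fun h => hli (Fin.ext h)
                exact Fin.lt_def.2 (by omega)
              rw [hcz i l hl', h2 l (by have := Fin.lt_def.1 hl'; omega), mul_zero, sub_zero])
        refine ⟨fun b => a b + if b = i then t else 0, fun b => (ha0 b).add ?_, fun l => ?_⟩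
        · split_ifs
          · exact ht0
          · exact ge_zero v 0
        · have h6 := ha l
          rw [cb_sub] at h6
          have h7 : ∑ b, W l b * (a b + if b = i then t else 0) =
              ∑ b, W l b * a b + W l i * t := by
            simp only [mul_add, Finset.sum_add_distrib, mul_ite, mul_zero]
            rw [Finset.sum_ite_eq', if_pos (Finset.mem_univ _)]
          rw [h7, ← h6, hWa]
          ring
    have hcol : ∀ j : ι, ∃ a : Fin (N + 1) → K, (∀ b, ge v 0 (a b)) ∧
        ∀ l, u l j = ∑ b, W l b * a b := by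
      intro j
      obtain ⟨a, h1, h2⟩ := hdec (N + 1) le_rfl (fun j' => if j' = j then 1 else 0) (fun j' => by
        split_ifs
        · exact ge_one v
        · exact ge_zero v 0) (fun l hl => absurd l.2 (by omega))
      refine ⟨a, h1, fun l => ?_⟩
      rw [← h2 l]
      unfold cb
      simp
    choose A hA0 hA using hcol
    have h8 : mnr u J = W.det * (Matrix.of fun b b' : Fin (N + 1) => A (J b') b).det := by
      rw [← Matrix.det_mul]
      unfold mnr
      congr 1
      ext a b
      rw [Matrix.mul_apply]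
      exact hA (J b) a
    rw [h8, ← hWord]
    have := (ge_of_ord v (x := W.det)).mul
      (ge_det v (Matrix.of fun b b' : Fin (N + 1) => A (J b') b) fun b b' => hA0 _ _)
    rwa [add_zero] at this
  · -- the determinant is a combination of the minors
    rw [← hWord]
    have h1 : W.det = ∑ J : Fin (N + 1) → ι, (∏ b, c b (J b)) * mnr u J := by
      rw [← Matrix.det_transpose]
      have h2 : W.transpose.det = Matrix.detRowAlternating
          (fun b : Fin (N + 1) => ∑ j : ι, c b j • fun a : Fin (N + 1) => u a j) := by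
        unfold Matrix.det
        congr 1
        funext b a
        rw [Matrix.transpose_apply, hWa, Finset.sum_apply]
        rfl
      rw [h2]
      have h3 := (Matrix.detRowAlternating (R := K) (n := Fin (N + 1))).toMultilinearMap.map_sum
        (fun b (j : ι) => c b j • fun a : Fin (N + 1) => u a j)
      rw [AlternatingMap.coe_multilinearMap] at h3
      rw [h3]
      refine Finset.sum_congr rfl fun J _ => ?_
      have h4 := (Matrix.detRowAlternating (R := K) (n := Fin (N + 1))).toMultilinearMap.map_smul_univ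
        (fun b => c b (J b)) (fun b a => u a (J b))
      rw [AlternatingMap.coe_multilinearMap] at h4
      rw [h4, smul_eq_mul]
      congr 1
      unfold mnr
      rw [← Matrix.det_transpose]
      rfl
    have h5 : ge v (mo v (mnr u)) W.det := by
      rw [h1]
      refine ge_sum v _ _ _ fun J _ => ?_
      have := (ge_prod v Finset.univ (fun b => c b (J b)) fun b _ => hc0 _ _).mul (hmo.1 J)
      rwa [zero_add] at this
    exact h5.resolve_left hWne

end Pool.Agent.H42.EE
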