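import Pool.Agent.H30.EE.TargetsG

/-!
# MP_70ba79_ag: module WGT (weights)
-/

set_option autoImplicit false

namespace Pool.Agent.H42.EE

open Pool.Agent.H30.EE Finset

/-- Vandermonde identity for negative exponents -/
lemma vdm (i p M : ℕ) : ∑ ab ∈ antidiagonal M,
    (((i + ab.1).choose i : ℚ) * ((p + ab.2).choose p : ℚ)) =
      ((i + p + 1 + M).choose (i + p + 1) : ℚ) := by
  have h0 := PowerSeries.invOneSubPow_add ℚ (i + 1) (p + 1)
  have h1 := congrArg (fun f : (PowerSeries ℚ)ˣ => PowerSeries.coeff M f.val) h0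
  have e : i + 1 + (p + 1) = (i + p + 1) + 1 := by ring
  simp only [e, Units.val_mul, PowerSeries.invOneSubPow_val_succ_eq_mk_add_choose,
    PowerSeries.coeff_mul, PowerSeries.coeff_mk] at h1
  exact h1.symm

/-- the weight -/
noncomputable def wt (N N' i j : ℕ) : ℚ :=
  (N.choose i : ℚ) * (N'.choose j : ℚ) / ((N + N').choose (i + j) : ℚ)

lemma wt_nonneg (N N' i j : ℕ) : 0 ≤ wt N N' i j := by
  unfold wt
  positivity

lemma wt_comm (N N' i j : ℕ) : wt N N' i j = wt N' N j i := by
  unfold wt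
  rw [mul_comm, add_comm N N', add_comm i j]

lemma w1 (N N' l : ℕ) (hl : l ≤ N + N') :
    ∑ ij ∈ (range (N + 1) ×ˢ range (N' + 1)).filter (fun ij => ij.1 + ij.2 = l),
      wt N N' ij.1 ij.2 = 1 := by
  have h1 : ∑ ij ∈ (range (N + 1) ×ˢ range (N' + 1)).filter (fun ij => ij.1 + ij.2 = l),
      ((N.choose ij.1 : ℚ) * (N'.choose ij.2 : ℚ)) = ((N + N').choose l : ℚ) := by
    rw [Nat.add_choose_eq]
    push_cast
    refine Finset.sum_subset (fun ij hij => ?_) fun ij hij hn => ?_
    · rw [Finset.HasAntidiagonal.mem_antidiagonal]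
      exact (mem_filter.1 hij).2
    · rw [Finset.HasAntidiagonal.mem_antidiagonal] at hij
      rw [mem_filter, mem_product, mem_range, mem_range] at hn
      by_cases hi : ij.1 < N + 1
      · have hj : N' < ij.2 := by
          by_contra hcon
          exact hn ⟨⟨hi, by omega⟩, hij⟩
        rw [Nat.choose_eq_zero_of_lt hj]
        simp
      · rw [Nat.choose_eq_zero_of_lt (by omega : N < ij.1)]
        simp
  have h2 : ((N + N').choose l : ℚ) ≠ 0 := by
    exact_mod_cast (Nat.choose_pos hl).ne'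
  have h3 : ∑ ij ∈ (range (N + 1) ×ˢ range (N' + 1)).filter (fun ij => ij.1 + ij.2 = l),
      wt N N' ij.1 ij.2 =
      (∑ ij ∈ (range (N + 1) ×ˢ range (N' + 1)).filter (fun ij => ij.1 + ij.2 = l),
        ((N.choose ij.1 : ℚ) * (N'.choose ij.2 : ℚ))) / ((N + N').choose l : ℚ) := by
    rw [Finset.sum_div]
    refine Finset.sum_congr rfl fun ij hij => ?_
    unfold wt
    rw [(mem_filter.1 hij).2]
  rw [h3, h1, div_self h2]

lemma w2 (N N' i : ℕ) (hi : i ≤ N) :
    ∑ j ∈ range (N' + 1), wt N N' i j = (N + N' + 1) / (N + 1) := by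
  obtain ⟨p, rfl⟩ := Nat.exists_eq_add_of_le hi
  have h1 : ∀ j ∈ range (N' + 1), wt (i + p) N' i j =
      ((i + j).choose i : ℚ) * ((p + (N' - j)).choose p : ℚ) / ((i + p + N').choose (i + p) : ℚ) := by
    intro j hj
    have hj' : j ≤ N' := Nat.lt_succ_iff.1 (mem_range.1 hj)
    obtain ⟨q, rfl⟩ := Nat.exists_eq_add_of_le hj'
    unfold wt
    have e1 : j + q - j = q := by omega
    have e2 : i + p + (j + q) = (i + j) + (p + q) := by ring
    rw [e1]
    have c1 := Nat.cast_add_choose ℚ (a := i) (b := p)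
    have c2 := Nat.cast_add_choose ℚ (a := j) (b := q)
    have c3 := Nat.cast_add_choose ℚ (a := i + j) (b := p + q)
    have c4 := Nat.cast_add_choose ℚ (a := i) (b := j)
    have c5 := Nat.cast_add_choose ℚ (a := p) (b := q)
    have c6 := Nat.cast_add_choose ℚ (a := i + p) (b := j + q)
    rw [c1, c2, c4, c5, c6]
    rw [e2, c3]
    have f : ∀ n : ℕ, (n.factorial : ℚ) ≠ 0 := fun n => by
      exact_mod_cast Nat.factorial_ne_zero n
    have f1 := f i
    have f2 := f p
    have f3 := f j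
    have f4 := f q
    have f5 := f (i + j)
    have f6 := f (p + q)
    have f7 := f (i + p)
    have f8 := f (j + q)
    have f9 := f (i + j + (p + q))
    field_simp
  rw [Finset.sum_congr rfl h1, ← Finset.sum_div]
  have h2 := vdm i p N'
  rw [Finset.Nat.sum_antidiagonal_eq_sum_range_succ
    (fun a b => ((i + a).choose i : ℚ) * ((p + b).choose p : ℚ))] at h2
  rw [h2]
  obtain ⟨N, hN⟩ : ∃ N, N = i + p := ⟨_, rfl⟩
  rw [← hN, Nat.cast_add_choose ℚ (a := N + 1) (b := N'), Nat.cast_add_choose ℚ (a := N) (b := N')]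
  have e3 : N + 1 + N' = (N + N') + 1 := by ring
  rw [e3, Nat.factorial_succ, Nat.factorial_succ]
  push_cast
  have f : ∀ n : ℕ, (n.factorial : ℚ) ≠ 0 := fun n => by
    exact_mod_cast Nat.factorial_ne_zero n
  have f1 := f N
  have f2 := f N'
  have f3 := f (N + N')
  field_simp

theorem pf_WGT : T_WGT := by
  intro N N' e e' e'' h
  have h1 : ∑ l ∈ range (N + N' + 1), e'' l =
      ∑ ij ∈ range (N + 1) ×ˢ range (N' + 1), wt N N' ij.1 ij.2 * e'' (ij.1 + ij.2) := by
    rw [← Finset.sum_fiberwise_of_maps_to (s := range (N + 1) ×ˢ range (N' + 1))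
      (t := range (N + N' + 1)) (g := fun ij : ℕ × ℕ => ij.1 + ij.2)]
    · refine Finset.sum_congr rfl fun l hl => ?_
      have h2 : ∑ ij ∈ (range (N + 1) ×ˢ range (N' + 1)).filter (fun ij => ij.1 + ij.2 = l),
          wt N N' ij.1 ij.2 * e'' (ij.1 + ij.2) =
          ∑ ij ∈ (range (N + 1) ×ˢ range (N' + 1)).filter (fun ij => ij.1 + ij.2 = l),
          wt N N' ij.1 ij.2 * e'' l :=
        Finset.sum_congr rfl fun ij hij => by rw [(mem_filter.1 hij).2]
      rw [h2, ← Finset.sum_mul, w1 N N' l (by rw [mem_range] at hl; omega), one_mul]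
    · intro ij hij
      rw [mem_product, mem_range, mem_range] at hij
      rw [mem_range]
      omega
  have h2 : ∑ ij ∈ range (N + 1) ×ˢ range (N' + 1), wt N N' ij.1 ij.2 * e'' (ij.1 + ij.2) ≤
      ∑ ij ∈ range (N + 1) ×ˢ range (N' + 1),
        (wt N N' ij.1 ij.2 * e ij.1 + wt N N' ij.1 ij.2 * e' ij.2) := by
    refine Finset.sum_le_sum fun ij hij => ?_
    rw [mem_product, mem_range, mem_range] at hij
    rw [← mul_add]
    exact mul_le_mul_of_nonneg_left (h ij.1 (by omega) ij.2 (by omega)) (wt_nonneg _ _ _ _)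
  rw [h1]
  refine h2.trans (le_of_eq ?_)
  rw [Finset.sum_add_distrib]
  congr 1
  · rw [Finset.sum_product, Finset.mul_sum]
    refine Finset.sum_congr rfl fun i hi => ?_
    have hi' : i ≤ N := Nat.lt_succ_iff.1 (mem_range.1 hi)
    have h3 := w2 N N' i hi'
    dsimp only
    rw [← Finset.sum_mul, h3]
  · rw [Finset.sum_product_right, Finset.mul_sum]
    refine Finset.sum_congr rfl fun j hj => ?_
    have hj' : j ≤ N' := Nat.lt_succ_iff.1 (mem_range.1 hj)
    have h3 := w2 N' N j hj'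
    dsimp only
    rw [← Finset.sum_mul]
    have h4 : ∑ i ∈ range (N + 1), wt N N' i j = ∑ i ∈ range (N + 1), wt N' N j i :=
      Finset.sum_congr rfl fun i _ => wt_comm N N' i j
    rw [h4, h3]
    have e5 : ((N' : ℚ) + N + 1) = (N + N' + 1) := by ring
    rw [e5]

end Pool.Agent.H42.EE
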